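import Mathlib

/-!
# MP_6b57c7_an (S04950): no constant `M_{1,n}`: for `n = 2` the inequality
`∫_S |f| ≤ M ∫_S |Re f|` (`f` a holomorphic polynomial, `f(0)` real) fails for every `M`.

Idea.  If `g` is a polynomial with `g(0) = 0`, `|g| ≤ 1` on the sphere `S`, then for `|λ| = 1`, `r < 1`
the function `f = 1/(1 - r λ g)` has positive real part and `f(0) = 1`, so `∫ |Re f| = vol`, while the
average over `λ` of `∫ |f|` is at least `c log (1/(1-r)) * vol {|g| ≥ r}`.  So it suffices to find `g`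
with `|g|` close to `1` on most of a fixed set `BI` of positive measure.  Such `g` are built by
repeated improvement `g ↦ g + P` where `P` is a sum of almost disjoint bumps
`m_j T`, `m_j = x₀^j x₁^(k-j) / max`, `T = (1-|g|²)/4`, `k → ∞`.

All statements `S_XXX` below are `Prop`s; a piece is a theorem `Run7.<you>.RP.xxx : S_XXX`
(with other statements as hypotheses where the docstring says so).
-/

set_option autoImplicit false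

noncomputable section

open MeasureTheory

namespace Pool.Agent.Run7.h81.RP

/-- the closed unit ball of `ℂ²`, as in the frozen statement -/
def B : Set (Fin 2 → ℂ) := {z | ∑ i, ‖z i‖ ^ 2 ≤ 1}

/-- radial projection onto the sphere, as in the frozen statement (`u 0 = 0`) -/
def u (z : Fin 2 → ℂ) : Fin 2 → ℂ := fun i => z i / ((Real.sqrt (∑ j, ‖z j‖ ^ 2) : ℝ) : ℂ)

/-- the unit sphere -/
def Sph : Set (Fin 2 → ℂ) := {x | ‖x 0‖ ^ 2 + ‖x 1‖ ^ 2 = 1}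

/-- the points `z ≠ 0` of the ball with `3/8 ≤ |u(z)_0|² ≤ 5/8` -/
def BI : Set (Fin 2 → ℂ) :=
  {z | z ∈ B ∧ z ≠ 0 ∧ 3 / 8 * ∑ i, ‖z i‖ ^ 2 ≤ ‖z 0‖ ^ 2 ∧ ‖z 0‖ ^ 2 ≤ 5 / 8 * ∑ i, ‖z i‖ ^ 2}

/-- polynomials in two variables -/
abbrev Pol := MvPolynomial (Fin 2) ℂ

/-- evaluation -/
def ev (x : Fin 2 → ℂ) (p : Pol) : ℂ := MvPolynomial.eval x p

/-- **SETS** (40-80 lines).  `B` and `BI` are measurable, `vol B < ∞`, `vol BI > 0`;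
`u z` is on the sphere for `z ≠ 0`, and `3/8 ≤ |u(z)_0|² ≤ 5/8` for `z ∈ BI`.
(`BI` contains the nonempty open set `{z : Σ|z_i|² < 1, 3/8 Σ < |z_0|² < 5/8 Σ}`, point `(1/2,1/2)`;
`B` is contained in the closed sup-norm ball of radius 1.) -/
def S_SETS : Prop :=
  MeasurableSet B ∧ MeasurableSet BI ∧ volume B < ⊤ ∧ 0 < volume BI ∧
    (∀ z : Fin 2 → ℂ, z ≠ 0 → u z ∈ Sph) ∧
    (∀ z ∈ BI, 3 / 8 ≤ ‖u z 0‖ ^ 2 ∧ ‖u z 0‖ ^ 2 ≤ 5 / 8) ∧ u 0 = 0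

/-- **INT** (40-80 lines).  For continuous `F` the function `F ∘ u` is integrable on the ball.
(`u` is measurable, `‖u z‖ ≤ 1` in the sup norm, `F` is bounded on the closed unit ball.) -/
def S_INT : Prop :=
  ∀ F : (Fin 2 → ℂ) → ℝ, Continuous F → IntegrableOn (fun z => F (u z)) B

/-- **MONO** (80-150 lines).  Orthogonality of monomials, from the invariance of Lebesgue measure, of
`B`, of `BI` and of `‖z‖` under `(z_0,z_1) ↦ (ζ_0 z_0, ζ_1 z_1)`, `|ζ_i| = 1`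
(`measurePreserving_pi`/`volume_preserving_pi` of two rotations; or `LinearIsometryEquiv.piCongr`..).
If `m ≠ m'` pick `i` with `m i ≠ m' i` and `ζ_i = exp(iπ/(m i - m' i))`: the integral equals its
negative.  The same for `B`. -/
def S_MONO : Prop :=
  ∀ m m' : Fin 2 →₀ ℕ, m ≠ m' →
    (∫ z in BI, (u z 0 ^ m 0 * u z 1 ^ m 1) * (starRingEnd ℂ) (u z 0 ^ m' 0 * u z 1 ^ m' 1)) = 0 ∧
    (∫ z in B, (u z 0 ^ m 0 * u z 1 ^ m 1) * (starRingEnd ℂ) (u z 0 ^ m' 0 * u z 1 ^ m' 1)) = 0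

/-- **ORTH** (60-100 lines, from `S_MONO`, `S_INT`).  Polynomials with disjoint supports are orthogonal
on `BI`; the mean of a polynomial over `B` is its constant coefficient.
(`ev x p = Σ_{m ∈ p.support} coeff m p * x_0^{m 0} x_1^{m 1}`: `MvPolynomial.eval_eq'`,
`Fin.prod_univ_two`; expand both sums.) -/
def S_ORTH : Prop :=
  (∀ p q : Pol, Disjoint p.support q.support →
    ∫ z in BI, ev (u z) p * (starRingEnd ℂ) (ev (u z) q) = 0) ∧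
  (∀ p : Pol, ∫ z in B, ev (u z) p = MvPolynomial.constantCoeff p * (volume.real B : ℂ))

/-- **UP** (30-60 lines).  Upper bound of the bumps.  With `p = √(j/k) ≥ 1/2`, `q = √(1-j/k) ≥ 1/2`.
Proof: `t ≤ exp (t-1)`, so `LHS ≤ exp ((j-a)(x/p-1) + (k-j-b)(y/q-1))`, the exponent is at most
`a + b + j(x/p-1) + (k-j)(y/q-1) = a + b + k (p x + q y - 1)` (`j = k p²`, `k - j = k q²`) and
`1 - p x - q y = ((x-p)² + (y-q)²)/2 ≥ (x-p)²/2 ≥ (x²-p²)²/8` because `x + p ≤ 2`. -/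
def S_UP : Prop :=
  ∀ (k j a b : ℕ) (x y : ℝ), 0 < k → k ≤ 4 * j → 4 * j ≤ 3 * k → a ≤ j → b ≤ k - j →
    0 ≤ x → 0 ≤ y → x ^ 2 + y ^ 2 = 1 →
    (x / Real.sqrt (j / k)) ^ (j - a) * (y / Real.sqrt (1 - j / k)) ^ (k - j - b) ≤
      Real.exp (a + b) * Real.exp (-(k * x ^ 2 - j) ^ 2 / (8 * k))

/-- **LOW** (40-70 lines).  Lower bound of the bumps near their centre.
Proof: `t ≥ exp (1 - 1/t)` for `t > 0`, so `LHS ≥ exp (k (1 - p³/x - q³/y))` and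
`p³/x + q³/y - 1 = ((x-p)² + (y-q)²)/2 + p (p-x)²/x + q (q-y)²/y` where `p/x, q/y ≤ 2`,
`(x-p)² ≤ 4 (x²-p²)²`, `(y-q)² ≤ 4 (x²-p²)²`; and `k (x²-p²)² ≤ 1`.  (Constants are generous: the
exact value is at most `4 + 16 = 20`.) -/
def S_LOW : Prop :=
  ∀ (k j : ℕ) (x y : ℝ), 64 ≤ k → k ≤ 4 * j → 4 * j ≤ 3 * k →
    0 ≤ x → 0 ≤ y → x ^ 2 + y ^ 2 = 1 → 3 / 8 ≤ x ^ 2 → x ^ 2 ≤ 5 / 8 →
    (k * x ^ 2 - j) ^ 2 ≤ k →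
    Real.exp (-28) ≤ (x / Real.sqrt (j / k)) ^ j * (y / Real.sqrt (1 - j / k)) ^ (k - j)

/-- **GAUSS** (50-90 lines).  A sum of Gaussians centred at points of one residue class mod `16 K`.
Proof: `j = o + 16 K i`, `t = (X - o)/(16 K)`, the exponent is `-16 (t - i)²`; let `i₀` be the integer
nearest to `t`; for `i ≠ i₀` one has `|t - i| ≥ |i - i₀|/2`, `exp (-4 n²) ≤ 1/(4 n²)`, and
`Σ_{n ≥ 1} 1/n² ≤ 2`: total `≤ 1 + 2 · 2/4 = 2`. -/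
def S_GAUSS : Prop :=
  ∀ (K : ℕ) (o : ℕ) (J : Finset ℕ) (X : ℝ), 0 < K → (∀ j ∈ J, j % (16 * K) = o) →
    ∑ j ∈ J, Real.exp (-(X - j) ^ 2 / (16 * (K : ℝ) ^ 2)) ≤ 2

/-- the normalised monomial `x₀^j x₁^(k-j) / (√(j/k)^j √(1-j/k)^(k-j))` -/
def mj (k j : ℕ) (x : Fin 2 → ℂ) : ℂ :=
  x 0 ^ j * x 1 ^ (k - j) /
    (((Real.sqrt (j / k)) ^ j * (Real.sqrt (1 - j / k)) ^ (k - j) : ℝ) : ℂ)

/-- **LOC** (120-200 lines, from `S_UP`).  The local pieces.  `N` bounds all exponents of `g`;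
`P = (1/4) κ (X₀^j X₁^(k-j) - Σ_{m,m'} c_m conj(c_{m'}) s^{m' 0} (1-s)^{m' 1} X₀^{j+m 0-m' 0} X₁^{k-j+m 1-m' 1})`
with `k = K²`, `s = j/k`, `κ = 1/(√s^j √(1-s)^(k-j))`.  On the sphere, with `σ = |x₀|²`
(`conj x₀ = σ/x₀`, `conj x₁ = (1-σ)/x₁`),
`4 (P - m_j T) = - m_j g Σ_{m'} conj(c_{m'}) (s^{m' 0}(1-s)^{m' 1} - σ^{m' 0}(1-σ)^{m' 1}) x₀^{-m' 0} x₁^{-m' 1}`,
and `|m_j x₀^{-a} x₁^{-b}| ≤ 2^{a+b} exp(a+b) exp(-(kσ-j)²/(8k))` by `S_UP` (`a, b ≤ N ≤ j, k-j`), while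
`|s^a (1-s)^b - σ^a (1-σ)^b| ≤ 2 N |s-σ|`.  So `‖P - m_j T‖ ≤ C_g |s-σ| exp(-k(s-σ)²/8)
≤ C_g' k^{-1/2} exp(-k(s-σ)²/16)` (`t exp(-t²/16) ≤ 4`). -/
def S_LOC : Prop :=
  ∀ g : Pol, (∀ x ∈ Sph, ‖ev x g‖ ≤ 1) → ∃ N : ℕ, ∀ ε : ℝ, 0 < ε → ∃ K0 : ℕ, ∀ K : ℕ, K0 ≤ K →
    ∀ j : ℕ, K ^ 2 ≤ 4 * j → 4 * j ≤ 3 * K ^ 2 →
      ∃ P : Pol,
        (∀ m ∈ P.support, j ≤ m 0 + N ∧ m 0 ≤ j + N ∧ K ^ 2 ≤ m 0 + m 1 + 2 * N) ∧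
        ∀ x ∈ Sph, ‖ev x P - mj (K ^ 2) j x * (((1 - ‖ev x g‖ ^ 2) / 4 : ℝ) : ℂ)‖ ≤
          ε * Real.exp (-((K : ℝ) ^ 2 * ‖x 0‖ ^ 2 - j) ^ 2 / (16 * (K : ℝ) ^ 2))

/-- **STEP** (150-250 lines, from `S_SETS S_INT S_ORTH S_UP S_LOW S_GAUSS S_LOC`).  One improvement.
`k = K²`, `D = 16 K`, `J = {j : k ≤ 4 j ≤ 3 k}`, `P_j` from `S_LOC`; for `o < D` put
`P_o = Σ_{j ∈ J, j % D = o} P_j`.  `|P_o| ≤ 2 T + 2 ε' = (1-|g|²)/2 + 2ε' ≤ 1 - |g|` if `2ε' ≤ η²/2`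
(`|m_j| ≤ exp(-(kσ-j)²/(8k))` by `S_UP`, `S_GAUSS`).  Supports: `P_j`, `P_{j'}` (`|j-j'| ≥ D > 2N`) and
`g` (`k > 2N + deg g`) are disjoint, so `∫_{BI} |g + P_o|² = ∫_{BI} |g|² + Σ_j ∫_{BI} |P_j|²`.  Pointwise
on `BI`: `Σ_{j ∈ J} |P_j|² ≥ Σ_j (|m_j|² T²/2 - ε'² exp(-(kσ-j)²/(8k)))` and `Σ_{j ∈ J} |m_j|² ≥ K e^{-56}`
(the `K` numbers `j = ⌊kσ⌋ - i`, `i < K`, `S_LOW`), `Σ_{j ∈ J} exp(...) ≤ 2 D`.  Average over `o`. -/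
def S_STEP : Prop :=
  ∃ c : ℝ, 0 < c ∧ ∀ (g : Pol) (η ε : ℝ), MvPolynomial.constantCoeff g = 0 → 0 < η → 0 < ε →
    (∀ x ∈ Sph, ‖ev x g‖ ≤ 1 - η) →
    ∃ g' : Pol, MvPolynomial.constantCoeff g' = 0 ∧ (∀ x ∈ Sph, ‖ev x g'‖ ≤ 1) ∧
      (∫ z in BI, ‖ev (u z) g‖ ^ 2) + c * (∫ z in BI, (1 - ‖ev (u z) g‖ ^ 2) ^ 2) - ε ≤
        ∫ z in BI, ‖ev (u z) g'‖ ^ 2

/-- **INNER** (60-100 lines, from `S_SETS S_INT S_STEP`).  Polynomials bounded by 1 on the sphere and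
almost unimodular on `BI`.  Let `s₀` be the supremum of `∫_{BI} |g|²` over the class; if
`s₀ < V = vol BI` put `τ = (V - s₀)/V`, take `g` with `∫|g|² > s₀ - δ`, apply `S_STEP` to `(1-η) g`:
`(1-η)² ∫|g|² + c ∫ (1-|g|²)² - ε ≤ s₀`, and `(1-|g|²)² ≥ 2τ(1-|g|²) - τ²` gives `∫ (1-|g|²)² ≥ τ² V`;
contradiction for small `δ, η, ε`. -/
def S_INNER : Prop :=
  ∀ ε : ℝ, 0 < ε → ∃ g : Pol, MvPolynomial.constantCoeff g = 0 ∧ (∀ x ∈ Sph, ‖ev x g‖ ≤ 1) ∧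
    ∫ z in BI, (1 - ‖ev (u z) g‖ ^ 2) ≤ ε

/-- **AVG** (60-100 lines).  Average over the `n`-th roots of unity: if `|w| ≥ 1 - 1/n`, `|w| < 1` then
`(1/n) Σ_{l<n} 1/|1 - ζ^l w| ≥ H_n/8`.  Proof: `w = ρ e^{iφ}`; choose the integer `l₀` with
`0 ≤ φ + 2π l₀/n < 2π/n`; for `l = l₀ + i` (`0 ≤ i < n`, reindex mod `n`)
`|1 - ρ e^{iθ}| ≤ (1-ρ) + |θ| ≤ 1/n + 2π (i+1)/n ≤ 8 (i+1)/n`. -/
def S_AVG : Prop :=
  ∀ (n : ℕ) (w : ℂ), 0 < n → ‖w‖ < 1 → 1 - 1 / (n : ℝ) ≤ ‖w‖ →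
    (∑ i ∈ Finset.range n, 1 / ((i : ℝ) + 1)) / 8 ≤
      (1 / (n : ℝ)) * ∑ l ∈ Finset.range n,
        1 / ‖1 - Complex.exp (2 * Real.pi * Complex.I * (l / n)) * w‖

/-- **FINAL** (120-200 lines, from `S_SETS S_INT S_ORTH S_INNER S_AVG`).  The frozen negation (case
`n = 2`).  Given `M` take `n` with `H_n` large, `r = 1 - 1/(2n)`, `g` from `S_INNER` with
`ε = vol BI/(4n)`.  For `λ` an `n`-th root of unity, `f_λ = Σ_{i ≤ J} (rλ)^i g^i`, `J` large, satisfies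
`|f_λ - 1/(1 - rλg)| ≤ δ` on the sphere (and at `u 0 = 0`), `f_λ(0) = 1`, so
`∫_B |Re f_λ| ≤ ∫_B Re f_λ + 2δ vol B = (1+2δ) vol B`; and averaging over `λ`, with `S_AVG` and
`1_{|g| ≥ 1-1/(2n)} ≥ 1 - 2n(1-|g|²)` on `BI`, some `λ` has
`∫_B |f_λ| ≥ (H_n/8)(vol BI - 2n ε) - δ vol B ≥ (H_n/16) vol BI - δ vol B`. -/
def S_FINAL : Prop :=
  ¬ (∀ n : ℕ, 2 ≤ n → ∃ M : ℝ, ∀ p : MvPolynomial (Fin n) ℂ,
      (MvPolynomial.constantCoeff p).im = 0 →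
      ∫ z in {z : Fin n → ℂ | ∑ i, ‖z i‖ ^ 2 ≤ 1},
          ‖MvPolynomial.eval (fun i => z i / ((Real.sqrt (∑ j, ‖z j‖ ^ 2) : ℝ) : ℂ)) p‖
        ≤ M * ∫ z in {z : Fin n → ℂ | ∑ i, ‖z i‖ ^ 2 ≤ 1},
          |(MvPolynomial.eval (fun i => z i / ((Real.sqrt (∑ j, ‖z j‖ ^ 2) : ℝ) : ℂ)) p).re|)

end Pool.Agent.Run7.h81.RP
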