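import Pool.Agent.Run7.h81.RP.I

set_option autoImplicit false

noncomputable section

open MeasureTheory

namespace Pool.Agent.Run7.h81.RP

theorem ev_monomial (x : Fin 2 → ℂ) (m : Fin 2 →₀ ℕ) (c : ℂ) :
    ev x (MvPolynomial.monomial m c) = c * (x 0 ^ m 0 * x 1 ^ m 1) := by
  unfold ev
  rw [MvPolynomial.eval_monomial, Finsupp.prod_fintype _ _ (fun i => pow_zero _),
    Fin.prod_univ_two]

theorem ev_eq (x : Fin 2 → ℂ) (p : Pol) :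
    ev x p = ∑ m ∈ p.support, p.coeff m * (x 0 ^ m 0 * x 1 ^ m 1) := by
  unfold ev
  rw [MvPolynomial.eval_eq']
  refine Finset.sum_congr rfl fun m _ => ?_
  rw [Fin.prod_univ_two]

/-- Lipschitz bound for `s^a (1-s)^b` on `[0,1]` -/
theorem lip (a b : ℕ) (s t : ℝ) (hs0 : 0 ≤ s) (hs1 : s ≤ 1) (ht0 : 0 ≤ t) (ht1 : t ≤ 1) :
    |s ^ a * (1 - s) ^ b - t ^ a * (1 - t) ^ b| ≤ ((a : ℝ) + b) * |s - t| := by
  have key : ∀ (n : ℕ) (x y : ℝ), 0 ≤ x → x ≤ 1 → 0 ≤ y → y ≤ 1 →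
      |x ^ n - y ^ n| ≤ n * |x - y| := by
    intro n x y hx0 hx1 hy0 hy1
    induction n with
    | zero => simp
    | succ n ih =>
      have : x ^ (n + 1) - y ^ (n + 1) = x * (x ^ n - y ^ n) + (x - y) * y ^ n := by ring
      rw [this]
      calc |x * (x ^ n - y ^ n) + (x - y) * y ^ n|
          ≤ |x * (x ^ n - y ^ n)| + |(x - y) * y ^ n| := abs_add_le _ _
        _ = x * |x ^ n - y ^ n| + |x - y| * y ^ n := by
            rw [abs_mul, abs_mul, abs_of_nonneg hx0, abs_of_nonneg (pow_nonneg hy0 n)]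
        _ ≤ 1 * (n * |x - y|) + |x - y| * 1 := by
            gcongr
            exact pow_le_one₀ hy0 hy1
        _ = ((n + 1 : ℕ) : ℝ) * |x - y| := by push_cast; ring
  have e : s ^ a * (1 - s) ^ b - t ^ a * (1 - t) ^ b =
      s ^ a * ((1 - s) ^ b - (1 - t) ^ b) + (s ^ a - t ^ a) * (1 - t) ^ b := by ring
  rw [e]
  have h1 := key a s t hs0 hs1 ht0 ht1
  have h2 := key b (1 - s) (1 - t) (by linarith) (by linarith) (by linarith) (by linarith)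
  have h3 : |(1 - s) - (1 - t)| = |s - t| := by
    rw [show (1 - s) - (1 - t) = -(s - t) by ring, abs_neg]
  rw [h3] at h2
  calc |s ^ a * ((1 - s) ^ b - (1 - t) ^ b) + (s ^ a - t ^ a) * (1 - t) ^ b|
      ≤ |s ^ a * ((1 - s) ^ b - (1 - t) ^ b)| + |(s ^ a - t ^ a) * (1 - t) ^ b| := abs_add_le _ _
    _ = s ^ a * |(1 - s) ^ b - (1 - t) ^ b| + |s ^ a - t ^ a| * (1 - t) ^ b := by
        rw [abs_mul, abs_mul, abs_of_nonneg (pow_nonneg hs0 a),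
          abs_of_nonneg (pow_nonneg (by linarith : (0:ℝ) ≤ 1 - t) b)]
    _ ≤ 1 * (b * |s - t|) + (a * |s - t|) * 1 := by
        gcongr
        · exact pow_le_one₀ hs0 hs1
        · exact pow_le_one₀ (by linarith) (by linarith)
    _ = ((a : ℝ) + b) * |s - t| := by ring

/-- `conj x ^ a * x ^ j = (|x|²)^a x^(j-a)` -/
theorem conj_pow_mul (x : ℂ) (a j : ℕ) (h : a ≤ j) :
    (starRingEnd ℂ x) ^ a * x ^ j = ((‖x‖ ^ 2 : ℝ) : ℂ) ^ a * x ^ (j - a) := by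
  have h1 : x ^ j = x ^ a * x ^ (j - a) := by rw [← pow_add, Nat.add_sub_cancel' h]
  rw [h1, ← mul_assoc, ← mul_pow, mul_comm (starRingEnd ℂ x) x, Complex.mul_conj,
    Complex.normSq_eq_norm_sq]

theorem t_exp (t : ℝ) : t * Real.exp (-t ^ 2 / 8) ≤ 2 * Real.exp (-t ^ 2 / 16) := by
  have h1 : Real.exp (-t ^ 2 / 8) = Real.exp (-t ^ 2 / 16) * Real.exp (-t ^ 2 / 16) := by
    rw [← Real.exp_add]; congr 1; ring
  have h2 : t ≤ 2 * Real.exp (t ^ 2 / 16) := by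
    have := Real.add_one_le_exp (t ^ 2 / 16)
    nlinarith [sq_nonneg (t - 4)]
  have h3 : Real.exp (t ^ 2 / 16) * Real.exp (-t ^ 2 / 16) = 1 := by
    rw [← Real.exp_add]; rw [show t ^ 2 / 16 + -t ^ 2 / 16 = 0 by ring, Real.exp_zero]
  have h4 := Real.exp_pos (-t ^ 2 / 16)
  rw [h1]
  calc t * (Real.exp (-t ^ 2 / 16) * Real.exp (-t ^ 2 / 16))
      = t * Real.exp (-t ^ 2 / 16) * Real.exp (-t ^ 2 / 16) := by ring
    _ ≤ (2 * Real.exp (t ^ 2 / 16)) * Real.exp (-t ^ 2 / 16) * Real.exp (-t ^ 2 / 16) := by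
        gcongr
    _ = 2 * (Real.exp (t ^ 2 / 16) * Real.exp (-t ^ 2 / 16)) * Real.exp (-t ^ 2 / 16) := by ring
    _ = 2 * Real.exp (-t ^ 2 / 16) := by rw [h3]; ring

theorem exp_nat_le (n : ℕ) : Real.exp n ≤ 3 ^ n := by
  have h : Real.exp 1 ≤ 3 := by
    have := Real.exp_one_lt_d9; linarith
  calc Real.exp n = Real.exp 1 ^ n := by rw [← Real.exp_nat_mul, mul_one]
    _ ≤ 3 ^ n := by gcongr

/-- the size of `κ |x₀|^(j-a) |x₁|^(k-j-b)` -/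
theorem bump_le (hUP : S_UP) (k j a b N : ℕ) (x y : ℝ) (hk : 0 < k) (h1 : k ≤ 4 * j)
    (h2 : 4 * j ≤ 3 * k) (ha : a ≤ j) (hb : b ≤ k - j) (hab : a + b ≤ N)
    (hx : 0 ≤ x) (hy : 0 ≤ y) (hxy : x ^ 2 + y ^ 2 = 1) :
    x ^ (j - a) * y ^ (k - j - b) / (Real.sqrt (j / k) ^ j * Real.sqrt (1 - j / k) ^ (k - j)) ≤
      6 ^ N * Real.exp (-(k * x ^ 2 - j) ^ 2 / (8 * k)) := by
  have hk' : (0 : ℝ) < k := by exact_mod_cast hk
  have h1' : (k : ℝ) ≤ 4 * j := by exact_mod_cast h1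
  have h2' : 4 * (j : ℝ) ≤ 3 * k := by exact_mod_cast h2
  have hs1 : (1 / 4 : ℝ) ≤ j / k := by rw [le_div_iff₀ hk']; linarith
  have hs2 : (j : ℝ) / k ≤ 3 / 4 := by rw [div_le_iff₀ hk']; linarith
  have hp : (1 / 2 : ℝ) ≤ Real.sqrt (j / k) := by
    rw [Real.le_sqrt' (by norm_num)]; linarith
  have hq : (1 / 2 : ℝ) ≤ Real.sqrt (1 - j / k) := by
    rw [Real.le_sqrt' (by norm_num)]; linarith
  set p := Real.sqrt ((j : ℝ) / k) with hpdef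
  set q := Real.sqrt (1 - (j : ℝ) / k) with hqdef
  have hp0 : 0 < p := by linarith
  have hq0 : 0 < q := by linarith
  have hU := hUP k j a b x y hk h1 h2 ha hb hx hy hxy
  rw [← hpdef, ← hqdef] at hU
  have e : x ^ (j - a) * y ^ (k - j - b) / (p ^ j * q ^ (k - j)) =
      ((x / p) ^ (j - a) * (y / q) ^ (k - j - b)) * ((1 / p) ^ a * (1 / q) ^ b) := by
    have e1 : p ^ j = p ^ (j - a) * p ^ a := by rw [← pow_add, Nat.sub_add_cancel ha]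
    have e2 : q ^ (k - j) = q ^ (k - j - b) * q ^ b := by rw [← pow_add, Nat.sub_add_cancel hb]
    rw [e1, e2, div_pow, div_pow, div_pow, div_pow, one_pow, one_pow]
    field_simp
  rw [e]
  have hE := Real.exp_pos (-(k * x ^ 2 - j) ^ 2 / (8 * k))
  have i1 : (1 / p) ^ a * (1 / q) ^ b ≤ 2 ^ (a + b) := by
    rw [pow_add]
    have j1 : 1 / p ≤ 2 := by rw [div_le_iff₀ hp0]; linarith
    have j2 : 1 / q ≤ 2 := by rw [div_le_iff₀ hq0]; linarith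
    gcongr
  have i2 : Real.exp ((a : ℝ) + b) ≤ 3 ^ (a + b) := by
    have := exp_nat_le (a + b)
    push_cast at this
    exact this
  have i3 : (3 : ℝ) ^ (a + b) * 2 ^ (a + b) ≤ 6 ^ N := by
    rw [← mul_pow]
    norm_num
    exact pow_le_pow_right₀ (by norm_num) hab
  calc ((x / p) ^ (j - a) * (y / q) ^ (k - j - b)) * ((1 / p) ^ a * (1 / q) ^ b)
      ≤ (Real.exp (a + b) * Real.exp (-(k * x ^ 2 - j) ^ 2 / (8 * k))) * 2 ^ (a + b) := by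
        gcongr
    _ ≤ (3 ^ (a + b) * Real.exp (-(k * x ^ 2 - j) ^ 2 / (8 * k))) * 2 ^ (a + b) := by
        gcongr
    _ = (3 ^ (a + b) * 2 ^ (a + b)) * Real.exp (-(k * x ^ 2 - j) ^ 2 / (8 * k)) := by ring
    _ ≤ 6 ^ N * Real.exp (-(k * x ^ 2 - j) ^ 2 / (8 * k)) := by gcongr

/-- exponent vector `(a, b)` -/
def ex (a b : ℕ) : Fin 2 →₀ ℕ := Finsupp.single 0 a + Finsupp.single 1 b

theorem ex_zero (a b : ℕ) : ex a b 0 = a := by simp [ex]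

theorem ex_one (a b : ℕ) : ex a b 1 = b := by simp [ex]

/-- the reflected polynomial -/
def refl (g : Pol) (k j : ℕ) (s : ℝ) : Pol :=
  ∑ m ∈ g.support, MvPolynomial.monomial (ex (j - m 0) (k - j - m 1))
    ((starRingEnd ℂ) (g.coeff m) * ((s ^ m 0 * (1 - s) ^ m 1 : ℝ) : ℂ))

/-- the local piece -/
def piece (g : Pol) (k j : ℕ) : Pol :=
  (((1 / 4) / (Real.sqrt (j / k) ^ j * Real.sqrt (1 - j / k) ^ (k - j)) : ℝ) : ℂ) •
    (MvPolynomial.monomial (ex j (k - j)) 1 - g * refl g k j (j / k))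

theorem ev_refl (g : Pol) (k j : ℕ) (s : ℝ) (x : Fin 2 → ℂ) :
    ev x (refl g k j s) = ∑ m ∈ g.support,
      (starRingEnd ℂ) (g.coeff m) * ((s ^ m 0 * (1 - s) ^ m 1 : ℝ) : ℂ) *
        (x 0 ^ (j - m 0) * x 1 ^ (k - j - m 1)) := by
  unfold refl ev
  rw [map_sum]
  refine Finset.sum_congr rfl fun m _ => ?_
  have := ev_monomial x (ex (j - m 0) (k - j - m 1))
    ((starRingEnd ℂ) (g.coeff m) * ((s ^ m 0 * (1 - s) ^ m 1 : ℝ) : ℂ))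
  unfold ev at this
  rw [this, ex_zero, ex_one]

theorem ev_piece (g : Pol) (k j : ℕ) (x : Fin 2 → ℂ) :
    ev x (piece g k j) =
      (((1 / 4) / (Real.sqrt (j / k) ^ j * Real.sqrt (1 - j / k) ^ (k - j)) : ℝ) : ℂ) *
        (x 0 ^ j * x 1 ^ (k - j) - ev x g * ev x (refl g k j (j / k))) := by
  have h := ev_monomial x (ex j (k - j)) 1
  rw [ex_zero, ex_one, one_mul] at h
  unfold piece ev at *
  rw [MvPolynomial.smul_eval, map_sub, map_mul, h]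

theorem supp_piece (g : Pol) (k j N : ℕ) (hN : ∀ m ∈ g.support, m 0 + m 1 ≤ N) (hj : N ≤ j)
    (hkj : N ≤ k - j) (hjk : j ≤ k) :
    ∀ m ∈ (piece g k j).support, j ≤ m 0 + N ∧ m 0 ≤ j + N ∧ k ≤ m 0 + m 1 + 2 * N := by
  classical
  intro m hm
  have h1 := MvPolynomial.support_smul hm
  have h2 := MvPolynomial.support_sub (Fin 2) _ _ h1
  rcases Finset.mem_union.1 h2 with h | h
  · have h3 := MvPolynomial.support_monomial_subset h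
    rw [Finset.mem_singleton] at h3
    rw [h3, ex_zero, ex_one]
    omega
  · have h3 := MvPolynomial.support_mul _ _ h
    rw [Finset.mem_add] at h3
    obtain ⟨a, ha, b, hb, hab⟩ := h3
    unfold refl at hb
    have h4 := MvPolynomial.support_sum hb
    rw [Finset.mem_biUnion] at h4
    obtain ⟨m', hm', hb'⟩ := h4
    have h5 := MvPolynomial.support_monomial_subset hb'
    rw [Finset.mem_singleton] at h5
    have e0 : m 0 = a 0 + (j - m' 0) := by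
      rw [← hab, h5, Finsupp.add_apply, ex_zero]
    have e1 : m 1 = a 1 + (k - j - m' 1) := by
      rw [← hab, h5, Finsupp.add_apply, ex_one]
    have i1 := hN a ha
    have i2 := hN m' hm'
    rw [e0, e1]
    omega

/-- the main identity on the sphere -/
theorem piece_sub (g : Pol) (k j N : ℕ) (hN : ∀ m ∈ g.support, m 0 + m 1 ≤ N) (hj : N ≤ j)
    (_hkj : N ≤ k - j) (x : Fin 2 → ℂ) (hx : x ∈ Sph) :
    ev x (piece g k j) - mj k j x * (((1 - ‖ev x g‖ ^ 2) / 4 : ℝ) : ℂ) =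
      (((1 / 4) / (Real.sqrt (j / k) ^ j * Real.sqrt (1 - j / k) ^ (k - j)) : ℝ) : ℂ) *
        (ev x g * ∑ m ∈ g.support, (starRingEnd ℂ) (g.coeff m) *
          (((‖x 0‖ ^ 2) ^ m 0 * (1 - ‖x 0‖ ^ 2) ^ m 1 -
            ((j : ℝ) / k) ^ m 0 * (1 - (j : ℝ) / k) ^ m 1 : ℝ) : ℂ) *
          (x 0 ^ (j - m 0) * x 1 ^ (k - j - m 1))) := by
  have hx1 : ‖x 1‖ ^ 2 = 1 - ‖x 0‖ ^ 2 := by
    have : ‖x 0‖ ^ 2 + ‖x 1‖ ^ 2 = 1 := hx
    linarith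
  have hconj : (x 0 ^ j * x 1 ^ (k - j)) * (starRingEnd ℂ) (ev x g) =
      ∑ m ∈ g.support, (starRingEnd ℂ) (g.coeff m) *
        (((‖x 0‖ ^ 2) ^ m 0 * (1 - ‖x 0‖ ^ 2) ^ m 1 : ℝ) : ℂ) *
        (x 0 ^ (j - m 0) * x 1 ^ (k - j - m 1)) := by
    rw [ev_eq, map_sum, Finset.mul_sum]
    refine Finset.sum_congr rfl fun m hm => ?_
    have i := hN m hm
    have a0 := conj_pow_mul (x 0) (m 0) j (by omega)
    have a1 := conj_pow_mul (x 1) (m 1) (k - j) (by omega)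
    rw [hx1] at a1
    rw [map_mul, map_mul, map_pow, map_pow]
    calc x 0 ^ j * x 1 ^ (k - j) * ((starRingEnd ℂ) (g.coeff m) *
          ((starRingEnd ℂ) (x 0) ^ m 0 * (starRingEnd ℂ) (x 1) ^ m 1))
        = (starRingEnd ℂ) (g.coeff m) * ((starRingEnd ℂ) (x 0) ^ m 0 * x 0 ^ j) *
          ((starRingEnd ℂ) (x 1) ^ m 1 * x 1 ^ (k - j)) := by ring
      _ = _ := by
          rw [a0, a1]
          push_cast
          ring
  have hsq : (((1 - ‖ev x g‖ ^ 2) : ℝ) : ℂ) = 1 - ev x g * (starRingEnd ℂ) (ev x g) := by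
    rw [Complex.mul_conj, Complex.normSq_eq_norm_sq]
    push_cast
    ring
  have hdiff : ∑ m ∈ g.support, (starRingEnd ℂ) (g.coeff m) *
          (((‖x 0‖ ^ 2) ^ m 0 * (1 - ‖x 0‖ ^ 2) ^ m 1 -
            ((j : ℝ) / k) ^ m 0 * (1 - (j : ℝ) / k) ^ m 1 : ℝ) : ℂ) *
          (x 0 ^ (j - m 0) * x 1 ^ (k - j - m 1)) =
      (x 0 ^ j * x 1 ^ (k - j)) * (starRingEnd ℂ) (ev x g) - ev x (refl g k j (j / k)) := by
    rw [hconj, ev_refl, ← Finset.sum_sub_distrib]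
    refine Finset.sum_congr rfl fun m _ => ?_
    push_cast
    ring
  rw [hdiff, ev_piece]
  have h4 : (((1 - ‖ev x g‖ ^ 2) / 4 : ℝ) : ℂ) = (1 - ev x g * (starRingEnd ℂ) (ev x g)) / 4 := by
    rw [← hsq]; push_cast; ring
  rw [h4]
  unfold mj
  push_cast
  ring

theorem piece_est (hUP : S_UP) (g : Pol) (hg : ∀ x ∈ Sph, ‖ev x g‖ ≤ 1) (K j N : ℕ)
    (hN : ∀ m ∈ g.support, m 0 + m 1 ≤ N) (hK : 0 < K) (hKN : 4 * N ≤ K)
    (h1 : K ^ 2 ≤ 4 * j) (h2 : 4 * j ≤ 3 * K ^ 2) (x : Fin 2 → ℂ) (hx : x ∈ Sph) :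
    ‖ev x (piece g (K ^ 2) j) - mj (K ^ 2) j x * (((1 - ‖ev x g‖ ^ 2) / 4 : ℝ) : ℂ)‖ ≤
      (∑ m ∈ g.support, ‖g.coeff m‖) * N * 6 ^ N / K *
        Real.exp (-((K : ℝ) ^ 2 * ‖x 0‖ ^ 2 - j) ^ 2 / (16 * (K : ℝ) ^ 2)) := by
  have hKK : K ≤ K ^ 2 := by nlinarith
  have hj : N ≤ j := by omega
  have hkj : N ≤ K ^ 2 - j := by omega
  have hK' : (0 : ℝ) < K := by exact_mod_cast hK
  have hk' : (0 : ℝ) < ((K ^ 2 : ℕ) : ℝ) := by exact_mod_cast (pow_pos hK 2)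
  have hkc : ((K ^ 2 : ℕ) : ℝ) = (K : ℝ) ^ 2 := by push_cast; rfl
  have hx' : ‖x 0‖ ^ 2 + ‖x 1‖ ^ 2 = 1 := hx
  have h1' : ((K ^ 2 : ℕ) : ℝ) ≤ 4 * j := by exact_mod_cast h1
  have h2' : 4 * (j : ℝ) ≤ 3 * ((K ^ 2 : ℕ) : ℝ) := by exact_mod_cast h2
  have hs0 : (0 : ℝ) ≤ (j : ℝ) / ((K ^ 2 : ℕ) : ℝ) := by positivity
  have hs1 : (j : ℝ) / ((K ^ 2 : ℕ) : ℝ) ≤ 1 := by rw [div_le_iff₀ hk']; linarith
  have hσ0 : (0 : ℝ) ≤ ‖x 0‖ ^ 2 := by positivity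
  have hσ1 : ‖x 0‖ ^ 2 ≤ 1 := by nlinarith [sq_nonneg ‖x 1‖]
  set t : ℝ := |(K : ℝ) ^ 2 * ‖x 0‖ ^ 2 - j| / K with ht
  have ht0 : 0 ≤ t := by positivity
  have hσs : |‖x 0‖ ^ 2 - (j : ℝ) / ((K ^ 2 : ℕ) : ℝ)| = t / K := by
    rw [hkc, ht]
    have : ‖x 0‖ ^ 2 - (j : ℝ) / (K : ℝ) ^ 2 = ((K : ℝ) ^ 2 * ‖x 0‖ ^ 2 - j) / (K : ℝ) ^ 2 := by
      field_simp
    rw [this, abs_div, abs_of_pos (by positivity : (0:ℝ) < (K : ℝ) ^ 2)]
    field_simp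
  have hexp8 : Real.exp (-(((K ^ 2 : ℕ) : ℝ) * ‖x 0‖ ^ 2 - j) ^ 2 / (8 * ((K ^ 2 : ℕ) : ℝ))) =
      Real.exp (-t ^ 2 / 8) := by
    congr 1
    rw [hkc, ht, div_pow, sq_abs]
    field_simp
  have hexp16 : Real.exp (-((K : ℝ) ^ 2 * ‖x 0‖ ^ 2 - j) ^ 2 / (16 * (K : ℝ) ^ 2)) =
      Real.exp (-t ^ 2 / 16) := by
    congr 1
    rw [ht, div_pow, sq_abs]
    field_simp
  rw [piece_sub g (K ^ 2) j N hN hj hkj x hx, norm_mul, norm_mul, Complex.norm_real, hexp16]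
  set κ : ℝ := Real.sqrt ((j : ℝ) / ((K ^ 2 : ℕ) : ℝ)) ^ j *
    Real.sqrt (1 - (j : ℝ) / ((K ^ 2 : ℕ) : ℝ)) ^ (K ^ 2 - j) with hκ
  have hκ0 : 0 ≤ κ := by positivity
  have hterm : ∀ m ∈ g.support, ‖(starRingEnd ℂ) (g.coeff m) *
          (((‖x 0‖ ^ 2) ^ m 0 * (1 - ‖x 0‖ ^ 2) ^ m 1 -
            ((j : ℝ) / ((K ^ 2 : ℕ) : ℝ)) ^ m 0 * (1 - (j : ℝ) / ((K ^ 2 : ℕ) : ℝ)) ^ m 1 : ℝ) : ℂ) *
          (x 0 ^ (j - m 0) * x 1 ^ (K ^ 2 - j - m 1))‖ / κ ≤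
        ‖g.coeff m‖ * (N * (t / K) * (6 ^ N * Real.exp (-t ^ 2 / 8))) := by
    intro m hm
    have i := hN m hm
    rw [norm_mul, norm_mul, RCLike.norm_conj, Complex.norm_real, norm_mul, norm_pow, norm_pow,
      Real.norm_eq_abs]
    have l := lip (m 0) (m 1) (‖x 0‖ ^ 2) ((j : ℝ) / ((K ^ 2 : ℕ) : ℝ)) hσ0 hσ1 hs0 hs1
    rw [hσs] at l
    have b := bump_le hUP (K ^ 2) j (m 0) (m 1) N ‖x 0‖ ‖x 1‖ (pow_pos hK 2) h1 h2
      (by omega) (by omega) i (norm_nonneg _) (norm_nonneg _) hx'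
    rw [hexp8, ← hκ] at b
    have i' : ((m 0 : ℝ) + m 1) ≤ N := by exact_mod_cast i
    have l' : |(‖x 0‖ ^ 2) ^ m 0 * (1 - ‖x 0‖ ^ 2) ^ m 1 -
            ((j : ℝ) / ((K ^ 2 : ℕ) : ℝ)) ^ m 0 * (1 - (j : ℝ) / ((K ^ 2 : ℕ) : ℝ)) ^ m 1| ≤
        N * (t / K) := by
      refine l.trans ?_
      gcongr
    rw [mul_div_assoc, mul_assoc]
    have b0 : 0 ≤ ‖x 0‖ ^ (j - m 0) * ‖x 1‖ ^ (K ^ 2 - j - m 1) / κ := by positivity
    gcongr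
  have hsum : ‖∑ m ∈ g.support, (starRingEnd ℂ) (g.coeff m) *
          (((‖x 0‖ ^ 2) ^ m 0 * (1 - ‖x 0‖ ^ 2) ^ m 1 -
            ((j : ℝ) / ((K ^ 2 : ℕ) : ℝ)) ^ m 0 * (1 - (j : ℝ) / ((K ^ 2 : ℕ) : ℝ)) ^ m 1 : ℝ) : ℂ) *
          (x 0 ^ (j - m 0) * x 1 ^ (K ^ 2 - j - m 1))‖ / κ ≤
      (∑ m ∈ g.support, ‖g.coeff m‖) * (N * (t / K) * (6 ^ N * Real.exp (-t ^ 2 / 8))) := by
    rw [Finset.sum_mul]
    calc _ ≤ (∑ m ∈ g.support, ‖(starRingEnd ℂ) (g.coeff m) *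
          (((‖x 0‖ ^ 2) ^ m 0 * (1 - ‖x 0‖ ^ 2) ^ m 1 -
            ((j : ℝ) / ((K ^ 2 : ℕ) : ℝ)) ^ m 0 * (1 - (j : ℝ) / ((K ^ 2 : ℕ) : ℝ)) ^ m 1 : ℝ) : ℂ) *
          (x 0 ^ (j - m 0) * x 1 ^ (K ^ 2 - j - m 1))‖) / κ := by
          gcongr
          exact norm_sum_le _ _
      _ ≤ _ := by
          rw [Finset.sum_div]
          exact Finset.sum_le_sum hterm
  have hgx := hg x hx
  have hC0 : 0 ≤ ∑ m ∈ g.support, ‖g.coeff m‖ := Finset.sum_nonneg fun _ _ => norm_nonneg _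
  set S := ‖∑ m ∈ g.support, (starRingEnd ℂ) (g.coeff m) *
          (((‖x 0‖ ^ 2) ^ m 0 * (1 - ‖x 0‖ ^ 2) ^ m 1 -
            ((j : ℝ) / ((K ^ 2 : ℕ) : ℝ)) ^ m 0 * (1 - (j : ℝ) / ((K ^ 2 : ℕ) : ℝ)) ^ m 1 : ℝ) : ℂ) *
          (x 0 ^ (j - m 0) * x 1 ^ (K ^ 2 - j - m 1))‖ with hS
  set C := ∑ m ∈ g.support, ‖g.coeff m‖ with hC
  rw [Real.norm_eq_abs, abs_of_nonneg (by positivity : (0:ℝ) ≤ 1 / 4 / κ)]
  calc 1 / 4 / κ * (‖ev x g‖ * S) = 1 / 4 * ‖ev x g‖ * (S / κ) := by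
        rw [div_div, one_div_mul_eq_div, mul_comm (4:ℝ) κ]
        rcases eq_or_lt_of_le hκ0 with h | h
        · rw [← h]; simp
        · field_simp
    _ ≤ 1 / 4 * 1 * (C * (N * (t / K) * (6 ^ N * Real.exp (-t ^ 2 / 8)))) := by
        gcongr
    _ = 1 / 4 * (C * N * 6 ^ N / K) * (t * Real.exp (-t ^ 2 / 8)) := by ring
    _ ≤ 1 / 4 * (C * N * 6 ^ N / K) * (2 * Real.exp (-t ^ 2 / 16)) :=
        mul_le_mul_of_nonneg_left (t_exp t) (by positivity)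
    _ ≤ C * N * 6 ^ N / K * Real.exp (-t ^ 2 / 16) := by
        have : 0 ≤ C * N * 6 ^ N / K * Real.exp (-t ^ 2 / 16) := by positivity
        nlinarith

theorem loc (hUP : S_UP) : S_LOC := by
  intro g hg
  set N := g.support.sup (fun m => m 0 + m 1) with hNdef
  have hN : ∀ m ∈ g.support, m 0 + m 1 ≤ N := fun m hm =>
    Finset.le_sup (f := fun m : Fin 2 →₀ ℕ => m 0 + m 1) hm
  refine ⟨N, fun ε hε => ?_⟩
  set C := (∑ m ∈ g.support, ‖g.coeff m‖) * N * 6 ^ N with hC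
  refine ⟨⌈C / ε⌉₊ + 4 * N + 1, fun K hK0 j h1 h2 => ?_⟩
  have hK : 0 < K := by omega
  have hKN : 4 * N ≤ K := by omega
  have hKK : K ≤ K ^ 2 := by nlinarith
  have hK' : (0 : ℝ) < K := by exact_mod_cast hK
  refine ⟨piece g (K ^ 2) j, ?_, fun x hx => ?_⟩
  · exact supp_piece g (K ^ 2) j N hN (by omega) (by omega) (by omega)
  · have h := piece_est hUP g hg K j N hN hK hKN h1 h2 x hx
    refine h.trans ?_
    have hCK : C / K ≤ ε := by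
      rw [div_le_iff₀ hK']
      have e1 : C / ε ≤ ⌈C / ε⌉₊ := Nat.le_ceil _
      have e2 : ((⌈C / ε⌉₊ : ℕ) : ℝ) ≤ K := by
        have : ⌈C / ε⌉₊ ≤ K := by omega
        exact_mod_cast this
      have e3 : C / ε ≤ K := e1.trans e2
      rw [div_le_iff₀ hε] at e3
      linarith
    gcongr

end Pool.Agent.Run7.h81.RP
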